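import Mathlib

/-!
# Pseudo-automorphisms of the cubic norm form of conductor 9

Let `T` be the norm form of the basis `1, α, α' = α² - 2` of the ring of integers of the cubic field
generated by a root `α` of `X³ - 3X + 1`.  We determine all pairs `f, h : ℤ → ℂ` with
`h (T (x, y, z)) = T (f x, f y, f z)`: `f` is linear, `f n = λ n`, or constant.

Proof.  The Galois action gives `T (x, y, z) = T (x, -z, y - z)`, and `T (x, y, 0) = T (x, 0, y)`.
The second identity gives `f y f 0 (f y - f 0) = 0`.  If `f 0 ≠ 0` one finds that `f` is constant.
If `f 0 = 0`, then `f` is odd, and comparing the coefficients of `f x` in the first identity shows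
that `f (y + z) = f y + f z` unless `f y = f z = - f (y + z)`.  This leaves `f n = λ n` and
`f n = λ χ n`, `χ` the nontrivial character modulo `3`; the latter is excluded by
`T (-2, 1, 2) = 1 = T (1, 0, 0)`.
-/

set_option autoImplicit false

namespace Pool.Agent.Results.MP_993e82_nt.Classification

/-- The cubic norm form, as a polynomial expression over any commutative ring. -/
def T {R : Type*} [CommRing R] (x y z : R) : R :=
  x ^ 3 - 3 * x * y ^ 2 - 3 * x * z ^ 2 + 3 * x * y * z - y ^ 3 + 6 * y ^ 2 * z - 3 * y * z ^ 2 - z ^ 3

/-- The functional equation `(*)`. -/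
def Satisfies (f h : ℤ → ℂ) : Prop := ∀ x y z : ℤ, h (T x y z) = T (f x) (f y) (f z)

theorem swap (f h : ℤ → ℂ) (H : Satisfies f h) (x y z x' y' z' : ℤ) (e : T x y z = T x' y' z') :
    T (f x) (f y) (f z) = T (f x') (f y') (f z') := by
  rw [← H, ← H, e]

theorem case_const (f h : ℤ → ℂ) (H : Satisfies f h) (h0 : f 0 ≠ 0) : ∀ n, f n = f 0 := by
  have key : ∀ y, f y = 0 ∨ f y = f 0 := by
    intro y
    have h1 := swap f h H 0 y 0 0 0 y (by unfold T; ring)
    unfold T at h1
    have h2 : 9 * (f y * f 0 * (f y - f 0)) = 0 := by linear_combination h1
    have h3 : f y * f 0 * (f y - f 0) = 0 := by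
      rcases mul_eq_zero.1 h2 with h | h
      · norm_num at h
      · exact h
    rcases mul_eq_zero.1 h3 with h | h
    · rcases mul_eq_zero.1 h with h | h
      · exact Or.inl h
      · exact absurd h h0
    · exact Or.inr (sub_eq_zero.1 h)
  intro n
  rcases key n with hn | hn
  · exfalso
    have h1 := swap f h H n n 0 n (-n) (-n) (by unfold T; ring)
    unfold T at h1
    rw [hn] at h1
    rcases key (-n) with hm | hm
    · rw [hm] at h1
      apply h0
      have : f 0 ^ 3 = 0 := by linear_combination -h1
      exact pow_eq_zero_iff (by norm_num) |>.1 this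
    · rw [hm] at h1
      apply h0
      have : 2 * f 0 ^ 3 = 0 := by linear_combination -h1
      rcases mul_eq_zero.1 this with h | h
      · norm_num at h
      · exact pow_eq_zero_iff (by norm_num) |>.1 h
  · exact hn

theorem odd (f h : ℤ → ℂ) (H : Satisfies f h) (h0 : f 0 = 0) (y : ℤ) : f (-y) = - f y := by
  have h1 := swap f h H 0 y 0 0 (-y) (-y) (by unfold T; ring)
  have h2 := swap f h H y y 0 y (-y) (-y) (by unfold T; ring)
  unfold T at h1 h2
  rw [h0] at h1 h2
  set u := f y
  set v := f (-y)
  have h3 : u ^ 3 + v ^ 3 = 0 := by linear_combination -h1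
  have h4 : u * (v ^ 2 - u ^ 2) = 0 := by linear_combination (h2 + h3) / 3
  rcases mul_eq_zero.1 h4 with h | h
  · rw [h] at h3 ⊢
    have : v ^ 3 = 0 := by linear_combination h3
    rw [pow_eq_zero_iff (by norm_num) |>.1 this, neg_zero]
  · have h5 : (v - u) * (v + u) = 0 := by linear_combination h
    rcases mul_eq_zero.1 h5 with h6 | h6
    · have h7 : v = u := sub_eq_zero.1 h6
      rw [h7] at h3 ⊢
      have : u ^ 3 = 0 := by linear_combination h3 / 2
      rw [pow_eq_zero_iff (by norm_num) |>.1 this, neg_zero]
    · exact eq_neg_of_add_eq_zero_left h6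

/-- The almost additivity. -/
theorem almost_additive (f h : ℤ → ℂ) (H : Satisfies f h) (h0 : f 0 = 0) (x₀ : ℤ)
    (h1 : f x₀ ≠ 0) (y z : ℤ) : f (y + z) = f y + f z ∨ (f y = f z ∧ f (y + z) = - f y) := by
  -- the relation for `(y, -z)`
  have key : ∀ y z : ℤ, (f (y + z) = f y + f z) ∨ (f y = f z ∧ f (y + z) = - f y) ∨
      (f y = - 2 * f z ∧ f (y + z) = 2 * f z) := by
    intro y z
    have e0 := swap f h H 0 y (-z) 0 z (y + z) (by unfold T; ring)
    have e1 := swap f h H x₀ y (-z) x₀ z (y + z) (by unfold T; ring)
    rw [odd f h H h0 z] at e0 e1
    unfold T at e0 e1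
    rw [h0] at e0
    set u := f y
    set v := f z
    set w := f (y + z)
    have g1 : f x₀ * ((u + w) * (u + v - w)) = 0 := by
      linear_combination (e0 - e1) / 3
    have g2 := (mul_eq_zero.1 g1).resolve_left h1
    rcases mul_eq_zero.1 g2 with g3 | g3
    · have hw : w = -u := by linear_combination g3
      rw [hw] at e0
      have g4 : (u - v) * ((u + 2 * v) * (2 * u + v)) = 0 := by
        linear_combination -e0
      rcases mul_eq_zero.1 g4 with g5 | g5
      · exact Or.inr (Or.inl ⟨sub_eq_zero.1 g5, hw⟩)
      · rcases mul_eq_zero.1 g5 with g6 | g6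
        · refine Or.inr (Or.inr ⟨by linear_combination g6, ?_⟩)
          rw [hw]; linear_combination -g6
        · left
          rw [hw]; linear_combination -g6
    · left
      linear_combination -g3
  rcases key y z with h2 | h2 | h2
  · exact Or.inl h2
  · exact Or.inr h2
  · -- the third case is impossible unless trivial
    have hsw := key z y
    rw [add_comm z y] at hsw
    obtain ⟨a1, a2⟩ := h2
    have hv : f z = 0 := by
      rcases hsw with b | ⟨b1, b2⟩ | ⟨b1, b2⟩
      · rw [a2, a1] at b
        linear_combination b / 3
      · rw [a1] at b1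
        linear_combination b1 / 3
      · rw [a1] at b1
        linear_combination -b1 / 3
    left
    rw [a2, a1, hv]; ring

/-- **Classification.**  The pair `f, h` satisfies `(*)` if and only if `f n = λ n` for all `n` and
`h m = λ³ m` for all values `m` of `T`, or `f` is a constant `λ` and `h m = - λ³` for all values `m`
of `T`. -/
theorem result (f h : ℤ → ℂ) :
    (∀ x y z : ℤ, h (T x y z) = T (f x) (f y) (f z)) ↔
      (∃ l : ℂ, (∀ n : ℤ, f n = l * n) ∧ ∀ x y z : ℤ, h (T x y z) = l ^ 3 * (T x y z : ℤ)) ∨
      (∃ l : ℂ, (∀ n : ℤ, f n = l) ∧ ∀ x y z : ℤ, h (T x y z) = - l ^ 3) := by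
  constructor
  · intro H
    by_cases h0 : f 0 = 0
    · left
      have hodd := odd f h H h0
      refine ⟨f 1, ?_⟩
      have main : ∀ n : ℤ, f n = f 1 * n := by
        by_cases h1 : f 1 = 0
        · -- `f` vanishes
          have hz : ∀ n : ℤ, f n = 0 := by
            by_contra hne
            push Not at hne
            obtain ⟨x₀, hx₀⟩ := hne
            have hadd := almost_additive f h H h0 x₀ hx₀
            have hnat : ∀ n : ℕ, f n = 0 := by
              intro n
              induction n with
              | zero => simpa using h0
              | succ n ih =>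
                rcases hadd (n : ℤ) 1 with h3 | ⟨-, h3⟩
                · push_cast
                  rw [h3, ih, h1, add_zero]
                · push_cast
                  rw [h3, ih, neg_zero]
            apply hx₀
            rcases le_total 0 x₀ with hn | hn
            · obtain ⟨m, rfl⟩ := Int.eq_ofNat_of_zero_le hn
              exact hnat m
            · obtain ⟨m, hm⟩ := Int.eq_ofNat_of_zero_le (Int.neg_nonneg_of_nonpos hn)
              have : f (-x₀) = 0 := by rw [hm]; exact hnat m
              rw [hodd] at this
              exact neg_eq_zero.1 this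
          intro n
          rw [hz n, h1, zero_mul]
        · have hadd := almost_additive f h H h0 1 h1
          have h2 : f 2 = 2 * f 1 := by
            rcases hadd 1 1 with h2 | ⟨-, h2⟩
            · rw [show (1 : ℤ) + 1 = 2 by norm_num] at h2
              rw [h2]; ring
            · exfalso
              rw [show (1 : ℤ) + 1 = 2 by norm_num] at h2
              have e := swap f h H (-2) 1 2 1 0 0 (by unfold T; norm_num)
              rw [hodd, h2, h0] at e
              unfold T at e
              apply h1
              have : f 1 ^ 3 = 0 := by linear_combination -e / 18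
              exact pow_eq_zero_iff (by norm_num) |>.1 this
          have hnat : ∀ n : ℕ, f (n + 1 : ℕ) = f 1 * (n + 1 : ℕ) := by
            intro n
            induction n with
            | zero => simp
            | succ n ih =>
              rcases Nat.eq_zero_or_pos n with hn | hn
              · subst hn
                simp only [Nat.cast_add, Nat.cast_one, zero_add]
                rw [show (1 : ℤ) + 1 = 2 by norm_num, h2]
                ring
              · rcases hadd ((n + 1 : ℕ) : ℤ) 1 with h3 | ⟨h3, -⟩
                · rw [show (((n + 1 + 1 : ℕ) : ℤ)) = ((n + 1 : ℕ) : ℤ) + 1 by push_cast; ring, h3, ih]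
                  push_cast
                  ring
                · exfalso
                  rw [ih] at h3
                  have h4 : f 1 * (n : ℂ) = 0 := by
                    push_cast at h3
                    linear_combination h3
                  rcases mul_eq_zero.1 h4 with h5 | h5
                  · exact h1 h5
                  · have : n = 0 := by exact_mod_cast h5
                    omega
          intro n
          rcases lt_trichotomy n 0 with hn | hn | hn
          · obtain ⟨m, hm⟩ : ∃ m : ℕ, n = -((m + 1 : ℕ) : ℤ) := ⟨(-n - 1).toNat, by push_cast; omega⟩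
            rw [hm, hodd, hnat]
            push_cast
            ring
          · rw [hn, h0]; simp
          · obtain ⟨m, hm⟩ : ∃ m : ℕ, n = ((m + 1 : ℕ) : ℤ) := ⟨(n - 1).toNat, by push_cast; omega⟩
            rw [hm, hnat]
            push_cast
            ring
      refine ⟨main, ?_⟩
      intro x y z
      rw [H, main, main y, main z]
      unfold T
      push_cast
      ring
    · right
      have hc := case_const f h H h0
      refine ⟨f 0, hc, ?_⟩
      intro x y z
      rw [H, hc, hc y, hc z]
      unfold T
      ring
  · rintro (⟨l, hf, hh⟩ | ⟨l, hf, hh⟩)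
    · intro x y z
      rw [hh, hf, hf y, hf z]
      unfold T
      push_cast
      ring
    · intro x y z
      rw [hh, hf, hf y, hf z]
      unfold T
      ring

end Pool.Agent.Results.MP_993e82_nt.Classification
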